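import Pool.Agent.H.MP_340332_ag.C

namespace Pool.Agent.Results.MP_340332_ag.Yes
open Polynomial Pool.Agent.H.MP_340332_ag

/-- Type B: `HD*(Y × 𝔸¹)` is a proper subalgebra that is not finitely generated. -/
def TypeB (K A : Type*) [CommRing K] [CommRing A] [Algebra K A] : Prop :=
  HD K A[X] ≠ ⊤ ∧ ¬ (HD K A[X]).FG

universe u

theorem result (K : Type u) [Field K] [IsAlgClosed K] [CharZero K] :
    ∃ (A B : Type u) (_ : CommRing A) (_ : CommRing B) (_ : Algebra K A) (_ : Algebra K B),
      IsDomain A ∧ IsDomain B ∧ Algebra.FiniteType K A ∧ Algebra.FiniteType K B ∧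
        TypeB K A ∧ Nonempty (A[X] ≃ₐ[K] B[X]) ∧ IsEmpty (A ≃ₐ[K] B) := by
  let t : LaurentPolynomial K := LaurentPolynomial.T 1
  let m := (t - 2) * (t ^ 2 - 1)
  let e := (t - 2) ^ 2 * (t + 2) ^ 2
  have ht : ∀ (τ : K) (h : IsUnit τ), evL h t = τ := fun τ h => evL_T h
  have u2 : IsUnit (2 : K) := IsUnit.mk0 _ two_ne_zero
  have hm : m ≠ 0 := by
    intro h
    have := congrArg (evL (IsUnit.mk0 (3 : K) three_ne_zero)) h
    simp only [m, map_mul, map_sub, map_pow, ht, map_ofNat, map_one, map_zero] at this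
    norm_num at this
  refine ⟨Q m e, Q m ((t + 2) ^ 2 * e), inferInstance, inferInstance, inferInstance, inferInstance,
    dom hm, dom hm, finT _ _, finT _ _, ?_, ?_, ⟨fun φ => ?_⟩⟩
  · refine typeB u2 (m1 := t ^ 2 - 1) (e1 := (t + 2) ^ 2) (by rw [map_ofNat]) (by rw [map_ofNat])
      ?_ hm
    simp only [map_sub, map_pow, ht, map_one]; norm_num
  · have h12 : LaurentPolynomial.C (12⁻¹ : K) * 12 = 1 := by
      rw [← map_ofNat LaurentPolynomial.C, ← map_mul, inv_mul_cancel₀ (by norm_num), map_one]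
    obtain ⟨φ⟩ := cyl (e := e) (α := t + 2) (a := LaurentPolynomial.C (12⁻¹ : K) *
      (t ^ 2 - 4 * t + 7)) (b := -LaurentPolynomial.C (12⁻¹ : K)) hm rfl (by
        simp only [m]; linear_combination h12)
    exact ⟨φ.restrictScalars K⟩
  · obtain ⟨s, α, β, γ, δ, η, hα, hγ, h1, h2, h3⟩ := iso_form hm hm φ
    have h4 := congrArg φ (rel (m := m) (e := e))
    have h5 : φ (algebraMap _ _ m) = algebraMap _ _ ((s - 2) * (s ^ 2 - 1)) := by
      simp only [m, t, map_mul, map_sub, map_pow, map_ofNat, map_one, h1]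
    have h6 : φ (algebraMap _ _ e) = algebraMap _ _ ((s - 2) ^ 2 * (s + 2) ^ 2) := by
      simp only [e, t, map_mul, map_sub, map_add, map_pow, map_ofNat, h1]
    rw [map_mul φ, map_add φ, map_mul φ, h5, h6, h2, h3] at h4
    generalize hM : (s - 2) * (s ^ 2 - 1) = M at h4
    generalize hE : (s - 2) ^ 2 * (s + 2) ^ 2 = E at h4
    obtain ⟨f1, f2, f3⟩ := comb_eq (m := m) (e := (t + 2) ^ 2 * e) (a := α ^ 2 * m)
      (b := 2 * α * β) (c := α ^ 2 * ((t + 2) ^ 2 * e) + β ^ 2) (a' := M * γ) (b' := M * δ)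
      (c' := M * η + E) (by
        have := rel (m := m) (e := (t + 2) ^ 2 * e)
        generalize (t + 2) ^ 2 * e = e' at *
        simp only [map_mul, map_add, map_pow, map_ofNat]
        linear_combination h4 - algebraMap _ _ α ^ 2 * this)
    obtain ⟨c, hc⟩ := unit_sq hα
    have key : ∀ τ : K, τ ^ 2 = 1 → (τ + 2) ^ 2 = c := by
      intro τ h
      have hτ : IsUnit τ := IsUnit.of_pow_eq_one h two_ne_zero
      have g0 := hc τ hτ h
      have g1 := congrArg (evL hτ) f1
      have g2 := congrArg (evL hτ) f2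
      have g3 := congrArg (evL hτ) f3
      have g4 := congrArg (evL hτ) hM
      have g5 := congrArg (evL hτ) hE
      have n1 := (hα.map (evL hτ)).ne_zero
      have n2 := (hγ.map (evL hτ)).ne_zero
      simp only [m, e, map_mul, map_add, map_sub, map_pow, map_ofNat, map_one, ht, h, sub_self,
        mul_zero] at g1 g2 g3 g4 g5
      have g6 : evL hτ M = 0 := (mul_eq_zero.1 g1.symm).resolve_right n2
      have g7 : evL hτ β = 0 := by simpa [g6, n1] using g2
      rw [g6] at g3 g4
      rw [g7, ← g5] at g3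
      have g8 : (τ - 2) ^ 2 * (τ + 2) ^ 2 = 9 := by linear_combination (τ ^ 2 - 7) * h
      rw [g8] at g3
      rcases mul_eq_zero.1 g4 with g | g
      · exfalso
        have : evL hτ α ^ 2 * ((τ + 2) ^ 2 * 9) = 0 := by rw [g] at g3; simpa using g3
        have n3 : τ + 2 ≠ 0 := by
          intro h0
          have : (3 : K) = 0 := by linear_combination (2 - τ) * h0 + h
          norm_num at this
        exact mul_ne_zero (pow_ne_zero _ n1) (mul_ne_zero (pow_ne_zero _ n3) (by norm_num)) this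
      · have g9 : evL hτ α ^ 2 * (τ + 2) ^ 2 = 1 := by
          linear_combination (1 / 9) * g3 + (1 / 9) * (evL hτ s ^ 2 - 7) * g
        linear_combination c * g9 - (τ + 2) ^ 2 * g0
    have := (key 1 (by norm_num)).trans (key (-1) (by norm_num)).symm
    norm_num at this

end Pool.Agent.Results.MP_340332_ag.Yes
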